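import Mathlib

/-! Steinberg relations of type A over the integers: conjugation formulas. -/

namespace Pool.Agent.Lib.MP_755cca_al.Tr

variable {I : Type} {G : Type} [Group G]

/-- the Weyl element -/
def w (x : I → I → ℤ → G) (i j : I) : G := x i j 1 * x j i (-1) * x i j 1

/-- the three Steinberg relations -/
structure St0 (x : I → I → ℤ → G) : Prop where
  add : ∀ {i j : I}, i ≠ j → ∀ s t, x i j (s + t) = x i j s * x i j t
  comm : ∀ {i j k l : I}, i ≠ j → k ≠ l → j ≠ k → i ≠ l → ∀ s t,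
    x i j s * x k l t = x k l t * x i j s
  st : ∀ {i j k : I}, i ≠ j → j ≠ k → i ≠ k → ∀ s t,
    x i j s * x j k t = x i k (s * t) * x j k t * x i j s

/-- the Steinberg relations, the braid relation and `w ^ 4 = 1` -/
structure St (x : I → I → ℤ → G) : Prop extends St0 x where
  braid : ∀ {i j : I}, i ≠ j → w x i j = x j i (-1) * x i j 1 * x j i (-1)
  w4 : ∀ {i j : I}, i ≠ j → w x i j ^ 4 = 1

variable {x : I → I → ℤ → G} {i j k l : I}

theorem St0.zero (h : St0 x) (hij : i ≠ j) : x i j 0 = 1 := by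
  have := h.add hij 0 0
  rw [add_zero] at this
  exact mul_eq_left.1 this.symm

theorem St0.inv (h : St0 x) (hij : i ≠ j) (t : ℤ) : (x i j t)⁻¹ = x i j (-t) := by
  rw [inv_eq_iff_mul_eq_one, ← h.add hij, add_neg_cancel, h.zero hij]

theorem St0.zpow (h : St0 x) (hij : i ≠ j) (s t : ℤ) : x i j s ^ t = x i j (s * t) := by
  induction t using Int.induction_on with
  | zero => rw [zpow_zero, mul_zero, h.zero hij]
  | succ n ih => rw [zpow_add_one, ih, ← h.add hij, mul_add, mul_one]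
  | pred n ih => rw [zpow_sub_one, ih, h.inv hij, ← h.add hij]; congr 1; ring

/-- conjugation -/
def cj (g y : G) : G := g * y * g⁻¹

theorem cj_mul (g a b : G) : cj g (a * b) = cj g a * cj g b := by simp [cj, mul_assoc]

theorem mul_cj (g g' a : G) : cj (g * g') a = cj g (cj g' a) := by simp [cj, mul_assoc]

theorem cj_inv (g a : G) : cj g a⁻¹ = (cj g a)⁻¹ := by simp [cj, mul_assoc]

theorem cj_one (g : G) : cj g 1 = 1 := by simp [cj]

theorem one_cj (g : G) : cj 1 g = g := by simp [cj]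

theorem cj_zpow (g a : G) (t : ℤ) : cj g (a ^ t) = cj g a ^ t := by
  simp [cj]

theorem St0.cj_comm (h : St0 x) (hij : i ≠ j) (hkl : k ≠ l) (hjk : j ≠ k) (hil : i ≠ l)
    (s t : ℤ) : cj (x i j s) (x k l t) = x k l t := by
  rw [cj, h.comm hij hkl hjk hil, mul_inv_cancel_right]

theorem St0.cj_l (h : St0 x) (hij : i ≠ j) (hjk : j ≠ k) (hik : i ≠ k) (s t : ℤ) :
    cj (x i j s) (x j k t) = x i k (s * t) * x j k t := by
  rw [cj, h.st hij hjk hik, mul_inv_cancel_right]

theorem St0.cj_r (h : St0 x) (hij : i ≠ j) (hki : k ≠ i) (hkj : k ≠ j) (s t : ℤ) :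
    cj (x i j s) (x k i t) = x k j (-(t * s)) * x k i t := by
  have e := h.st hki hij hkj t s
  have : x i j s * x k i t = x k j (-(t * s)) * x k i t * x i j s := by
    rw [mul_assoc, e, ← mul_assoc, ← mul_assoc, ← h.add hkj, neg_add_cancel, h.zero hkj, one_mul]
  rw [cj, this, mul_inv_cancel_right]

theorem St0.w_jk (h : St0 x) (hij : i ≠ j) (hjk : j ≠ k) (hik : i ≠ k) (t : ℤ) :
    cj (w x i j) (x j k t) = x i k t := by
  rw [w, mul_cj, mul_cj, h.cj_l hij hjk hik, cj_mul, h.cj_l hij.symm hik hjk,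
    h.cj_comm hij.symm hjk hij hjk, mul_assoc, h.comm hik hjk hjk.symm hik, ← mul_assoc,
    ← h.add hjk, one_mul, neg_one_mul, neg_add_cancel, h.zero hjk, one_mul,
    h.cj_comm hij hik hij.symm hik]

theorem St0.w_ik (h : St0 x) (hij : i ≠ j) (hjk : j ≠ k) (hik : i ≠ k) (t : ℤ) :
    cj (w x i j) (x i k t) = x j k (-t) := by
  rw [w, mul_cj, mul_cj, h.cj_comm hij hik hij.symm hik, h.cj_l hij.symm hik hjk, cj_mul,
    h.cj_l hij hjk hik, h.cj_comm hij hik hij.symm hik, mul_assoc, h.comm hjk hik hik.symm hjk,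
    ← mul_assoc, ← h.add hik, one_mul, neg_one_mul, neg_add_cancel, h.zero hik, one_mul]

theorem St0.w_ki (h : St0 x) (hij : i ≠ j) (hkj : k ≠ j) (hki : k ≠ i) (t : ℤ) :
    cj (w x i j) (x k i t) = x k j (-t) := by
  rw [w, mul_cj, mul_cj, h.cj_r hij hki hkj, cj_mul, h.cj_r hij.symm hkj hki,
    h.cj_comm hij.symm hki hki.symm hij.symm, mul_assoc, h.comm hkj hki hkj.symm hki,
    ← mul_assoc, ← h.add hki]
  have e : -(-(t * 1) * -1) + t = 0 := by ring
  rw [e, h.zero hki, one_mul, h.cj_comm hij hkj hkj.symm hij, mul_one]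

theorem St0.w_kj (h : St0 x) (hij : i ≠ j) (hkj : k ≠ j) (hki : k ≠ i) (t : ℤ) :
    cj (w x i j) (x k j t) = x k i t := by
  rw [w, mul_cj, mul_cj, h.cj_comm hij hkj hkj.symm hij, h.cj_r hij.symm hkj hki, cj_mul,
    h.cj_r hij hki hkj, h.cj_comm hij hkj hkj.symm hij, mul_assoc, h.comm hki hkj hki.symm hkj,
    ← mul_assoc, ← h.add hkj]
  have e : -(-(t * -1) * 1) + t = 0 := by ring
  rw [e, h.zero hkj, one_mul]
  congr 1; ring

theorem St0.w_kl (h : St0 x) (hij : i ≠ j) (hkl : k ≠ l) (hki : k ≠ i) (hkj : k ≠ j)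
    (hli : l ≠ i) (hlj : l ≠ j) (t : ℤ) : cj (w x i j) (x k l t) = x k l t := by
  rw [w, mul_cj, mul_cj, h.cj_comm hij hkl hkj.symm hli.symm,
    h.cj_comm hij.symm hkl hki.symm hlj.symm, h.cj_comm hij hkl hkj.symm hli.symm]

theorem St0.commutator (h : St0 x) (hij : i ≠ j) (hjk : j ≠ k) (hik : i ≠ k) (s t : ℤ) :
    x i k (s * t) = x i j s * x j k t * (x i j s)⁻¹ * (x j k t)⁻¹ := by
  rw [h.st hij hjk hik]; simp [mul_assoc]

/-- with a third index the braid relation follows from the Steinberg relations -/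
theorem St0.braid (h : St0 x) (hij : i ≠ j) (hki : k ≠ i) (hkj : k ≠ j) :
    w x i j = x j i (-1) * x i j 1 * x j i (-1) := by
  have e : cj (w x i j) (x j i (-1)) = x i j 1 := by
    have e1 := h.commutator hkj.symm hki hij.symm (-1) 1
    have e2 := h.commutator hki.symm hkj hij (-1) (-1)
    rw [mul_one] at e1
    rw [e1, cj_mul, cj_mul, cj_mul, cj_inv, cj_inv, h.w_jk hij hkj.symm hki.symm,
      h.w_ki hij hkj hki, ← e2]
    norm_num
  rw [cj, mul_inv_eq_iff_eq_mul] at e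
  have e3 : x i j 1 * (x j i (-1) * x i j 1 * x j i (-1)) = x i j 1 * w x i j := by
    rw [← e]; simp [w, mul_assoc]
  exact (mul_left_cancel e3).symm

theorem St0.toSt (h : St0 x) (h3 : ∀ i j : I, ∃ k, k ≠ i ∧ k ≠ j)
    (h4 : ∀ {i j : I}, i ≠ j → w x i j ^ 4 = 1) : St x where
  toSt0 := h
  braid := fun {i j} hij => by
    obtain ⟨k, hki, hkj⟩ := h3 i j
    exact h.braid hij hki hkj
  w4 := h4

theorem St.w_inv (h : St x) (hij : i ≠ j) : (w x i j)⁻¹ = w x j i := by
  rw [h.braid hij, mul_inv_rev, mul_inv_rev, h.inv hij, h.inv hij.symm, neg_neg, w, mul_assoc]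

theorem St.w_ij (h : St x) (hij : i ≠ j) (t : ℤ) : cj (w x i j) (x i j t) = x j i (-t) := by
  have e : cj (w x i j) (x i j 1) = x j i (-1) := by
    rw [cj, mul_inv_eq_iff_eq_mul]
    conv_lhs => rw [h.braid hij]
    simp [w, mul_assoc]
  have := congrArg (· ^ t) e
  simp only [← cj_zpow, h.zpow hij, h.zpow hij.symm, one_mul, neg_one_mul] at this
  exact this

theorem St.w_ji (h : St x) (hij : i ≠ j) (t : ℤ) : cj (w x i j) (x j i t) = x i j (-t) := by
  have e2 : cj (w x i j) (x j i (-1)) = x i j 1 := by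
    rw [cj, mul_inv_eq_iff_eq_mul]
    conv_rhs => rw [h.braid hij]
    simp [w, mul_assoc]
  have := congrArg (· ^ (-t)) e2
  simp only [← cj_zpow, h.zpow hij, h.zpow hij.symm, one_mul, neg_one_mul, neg_neg] at this
  exact this

theorem St.w_swap [DecidableEq I] (h : St x) (hij : i ≠ j) (hkl : k ≠ l) (t : ℤ) :
    ∃ t', cj (w x i j) (x k l t) = x (Equiv.swap i j k) (Equiv.swap i j l) t' := by
  by_cases h1 : k = i
  · subst h1
    by_cases h2 : l = j
    · subst h2; exact ⟨_, by rw [h.w_ij hij, Equiv.swap_apply_left, Equiv.swap_apply_right]⟩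
    · exact ⟨_, by
        rw [h.w_ik hij (Ne.symm h2) hkl, Equiv.swap_apply_left,
          Equiv.swap_apply_of_ne_of_ne hkl.symm h2]⟩
  by_cases h2 : k = j
  · subst h2
    by_cases h3 : l = i
    · subst h3; exact ⟨_, by rw [h.w_ji hij, Equiv.swap_apply_left, Equiv.swap_apply_right]⟩
    · exact ⟨_, by
        rw [h.w_jk hij hkl (Ne.symm h3), Equiv.swap_apply_right,
          Equiv.swap_apply_of_ne_of_ne h3 hkl.symm]⟩
  by_cases h3 : l = i
  · subst h3
    exact ⟨_, by rw [h.w_ki hij h2 h1, Equiv.swap_apply_left, Equiv.swap_apply_of_ne_of_ne h1 h2]⟩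
  by_cases h4 : l = j
  · subst h4
    exact ⟨_, by rw [h.w_kj hij h2 h1, Equiv.swap_apply_right, Equiv.swap_apply_of_ne_of_ne h1 h2]⟩
  exact ⟨_, by
    rw [h.w_kl hij hkl h1 h2 h3 h4, Equiv.swap_apply_of_ne_of_ne h1 h2,
      Equiv.swap_apply_of_ne_of_ne h3 h4]⟩

/-- the subgroup generated by the root elements at the positions allowed by `p` -/
def E (x : I → I → ℤ → G) (p : I → I → Prop) : Subgroup G :=
  Subgroup.closure {g | ∃ i j t, i ≠ j ∧ p i j ∧ g = x i j t}

variable {p q : I → I → Prop}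

theorem E_mem (hij : i ≠ j) (hp : p i j) (t : ℤ) : x i j t ∈ E x p :=
  Subgroup.subset_closure ⟨i, j, t, hij, hp, rfl⟩

theorem E_le {K : Subgroup G} (hK : ∀ i j t, i ≠ j → p i j → x i j t ∈ K) : E x p ≤ K := by
  refine (Subgroup.closure_le _).2 ?_
  rintro _ ⟨i, j, t, hij, hp, rfl⟩
  exact hK i j t hij hp

theorem E_mono (hpq : ∀ i j, i ≠ j → p i j → q i j) : E x p ≤ E x q :=
  E_le fun i j t hij hp => E_mem hij (hpq i j hij hp) t

theorem w_mem (hij : i ≠ j) (h1 : p i j) (h2 : p j i) : w x i j ∈ E x p :=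
  mul_mem (mul_mem (E_mem hij h1 _) (E_mem hij.symm h2 _)) (E_mem hij h1 _)

theorem St0.E_ind (h : St0 x) {Q : G → Prop} (h1 : Q 1)
    (hs : ∀ g i j t, i ≠ j → p i j → g ∈ E x p → Q g → Q (g * x i j t)) {g : G} (hg : g ∈ E x p) :
    Q g := by
  induction hg using Subgroup.closure_induction_right with
  | one => exact h1
  | mul_right g hg y hy ih =>
    obtain ⟨i, j, t, hij, hp, rfl⟩ := hy
    exact hs g i j t hij hp hg ih
  | mul_inv_cancel g hg y hy ih =>
    obtain ⟨i, j, t, hij, hp, rfl⟩ := hy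
    rw [h.inv hij]
    exact hs g i j _ hij hp hg ih

/-- a set stable under the generators is stable under the subgroup -/
theorem St0.E_stab (h : St0 x) {Q : G → Prop}
    (hs : ∀ g i j t, i ≠ j → p i j → Q g → Q (g * x i j t)) {z g : G} (hz : Q z) (hg : g ∈ E x p) :
    Q (z * g) :=
  h.E_ind (Q := fun g => Q (z * g)) (by rwa [mul_one])
    (fun g i j t hij hp _ ih => by rw [← mul_assoc]; exact hs _ i j t hij hp ih) hg

theorem cj_E {K : Subgroup G} {g y : G} (hK : ∀ i j t, i ≠ j → p i j → cj g (x i j t) ∈ K)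
    (hy : y ∈ E x p) : cj g y ∈ K := by
  induction hy using Subgroup.closure_induction with
  | mem y hy =>
    obtain ⟨i, j, t, hij, hp, rfl⟩ := hy
    exact hK i j t hij hp
  | one => rw [cj_one]; exact one_mem _
  | mul a b _ _ ha hb => rw [cj_mul]; exact mul_mem ha hb
  | inv a _ ha => rw [cj_inv]; exact inv_mem ha

theorem St0.E_norm (h : St0 x)
    (hn : ∀ i j s k l t, i ≠ j → p i j → k ≠ l → q k l → cj (x i j s) (x k l t) ∈ E x q)
    {g y : G} (hg : g ∈ E x p) (hy : y ∈ E x q) : cj g y ∈ E x q :=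
  h.E_ind (Q := fun g => ∀ y ∈ E x q, cj g y ∈ E x q) (fun y hy => by rwa [one_cj])
    (fun g i j s hij hp _ ih y hy => by
      rw [mul_cj]
      exact ih _ (cj_E (fun k l t hkl hq => hn i j s k l t hij hp hkl hq) hy)) hg y hy

theorem St.cj_w_E [DecidableEq I] (h : St x) (hij : i ≠ j)
    (hpq : ∀ k l, k ≠ l → p k l → q (Equiv.swap i j k) (Equiv.swap i j l)) {y : G}
    (hy : y ∈ E x p) : cj (w x i j) y ∈ E x q :=
  cj_E (fun k l t hkl hp => by
    obtain ⟨t', e⟩ := h.w_swap hij hkl t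
    rw [e]
    exact E_mem (fun e => hkl ((Equiv.swap i j).injective e)) (hpq k l hkl hp) _) hy

/-- if `E q` normalises `E p'` and each generator of `E p` lies in one of them -/
theorem St0.E_split (h : St0 x) {p' : I → I → Prop}
    (hn : ∀ i j s k l t, i ≠ j → q i j → k ≠ l → p' k l → cj (x i j s) (x k l t) ∈ E x p')
    (hp : ∀ i j, i ≠ j → p i j → q i j ∨ p' i j) {g : G} (hg : g ∈ E x p) :
    ∃ a ∈ E x q, ∃ b ∈ E x p', g = a * b := by
  refine h.E_ind (Q := fun g => ∃ a ∈ E x q, ∃ b ∈ E x p', g = a * b)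
    ⟨1, one_mem _, 1, one_mem _, by simp⟩ ?_ hg
  rintro _ i j t hij hpij - ⟨a, ha, b, hb, rfl⟩
  rcases hp i j hij hpij with h1 | h1
  · refine ⟨a * x i j t, mul_mem ha (E_mem hij h1 t), cj (x i j (-t)) b,
      h.E_norm hn (E_mem hij h1 _) hb, ?_⟩
    rw [← h.inv hij]; simp [cj, mul_assoc]
  · exact ⟨a, ha, b * x i j t, mul_mem hb (E_mem hij h1 t), by rw [mul_assoc]⟩

end Pool.Agent.Lib.MP_755cca_al.Tr
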