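import Pool.Agent.Lib.MP_755cca_al.Tr.A

/-! Rows and columns of the matrices of words, and the rank one case. -/

open Matrix

namespace Pool.Agent.Lib.MP_755cca_al.Tr

variable {I : Type} [Fintype I] [DecidableEq I] {G : Type} [Group G]

/-- `ρ` sends root elements to elementary matrices -/
def Rep (x : I → I → ℤ → G) (ρ : G →* Matrix I I ℤ) : Prop :=
  ∀ i j t, i ≠ j → ρ (x i j t) = transvection i j t

variable {x : I → I → ℤ → G} {ρ : G →* Matrix I I ℤ} {i j k l d a c : I} {p : I → I → Prop}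

theorem Rep.mul_x (hρ : Rep x ρ) (hij : i ≠ j) (g : G) (t : ℤ) (a l : I) :
    ρ (g * x i j t) a l = ρ g a l + if l = j then t * ρ g a i else 0 := by
  rw [map_mul, hρ i j t hij]
  split_ifs with h
  · subst h; exact mul_transvection_apply_same _ _ _ _ _
  · rw [mul_transvection_apply_of_ne _ _ _ _ h, add_zero]

theorem Rep.mul_w (hρ : Rep x ρ) (hij : i ≠ j) (g : G) (a l : I) :
    ρ (g * w x i j) a l =
      if l = j then ρ g a i else if l = i then -ρ g a j else ρ g a l := by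
  rw [w, ← mul_assoc, ← mul_assoc]
  simp only [hρ.mul_x hij, hρ.mul_x hij.symm, if_neg hij, if_true]
  by_cases h1 : l = j
  · subst h1; simp [hij.symm]
  · by_cases h2 : l = i
    · subst h2; simp [hij]
    · simp [h1, h2]

theorem rho_one (ρ : G →* Matrix I I ℤ) (a l : I) : ρ 1 a l = if l = a then 1 else 0 := by
  rw [map_one, one_apply]; simp [eq_comm]

theorem Rep.row_E (hρ : Rep x ρ) (h : St0 x) {g : G} (hg : g ∈ E x p) (hc : ∀ j, ¬ p c j)
    (l : I) : ρ g c l = if l = c then 1 else 0 := by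
  revert l
  refine h.E_ind (Q := fun g => ∀ l, ρ g c l = if l = c then 1 else 0) (rho_one ρ c) ?_ hg
  intro g i j t hij hp _ ih l
  have : i ≠ c := fun e => hc j (e ▸ hp)
  rw [hρ.mul_x hij, ih l, ih i, if_neg this]; simp

theorem Rep.col_E (hρ : Rep x ρ) (h : St0 x) {g : G} (hg : g ∈ E x p) (hc : ∀ i, ¬ p i c)
    (z : G) (a : I) : ρ (z * g) a c = ρ z a c :=
  h.E_stab (Q := fun g => ρ g a c = ρ z a c) (fun g i j t hij hp ih => by
    have : c ≠ j := fun e => hc i (e ▸ hp)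
    rw [hρ.mul_x hij, ih, if_neg this, add_zero]) rfl hg

theorem Rep.col_E' (hρ : Rep x ρ) (h : St0 x) {g : G} (hg : g ∈ E x p) (hc : ∀ i, ¬ p i c)
    (a : I) : ρ g a c = if c = a then 1 else 0 := by
  have := hρ.col_E h hg hc 1 a
  rwa [one_mul, rho_one] at this

theorem row_mul (ρ : G →* Matrix I I ℤ) {z : G} (hz : ∀ l, l ≠ c → ρ z a l = 0) (g : G) (l : I) :
    ρ (z * g) a l = ρ z a c * ρ g c l := by
  rw [map_mul, mul_apply, Fintype.sum_eq_single c]
  intro m hm; rw [hz m hm, zero_mul]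

theorem row_mul2 (ρ : G →* Matrix I I ℤ) {z : G} (hcd : c ≠ d)
    (hz : ∀ l, l ≠ c → l ≠ d → ρ z a l = 0) (g : G) (l : I) :
    ρ (z * g) a l = ρ z a c * ρ g c l + ρ z a d * ρ g d l := by
  rw [map_mul, mul_apply, Fintype.sum_eq_add c d hcd]
  intro m hm; rw [hz m hm.1 hm.2, zero_mul]

theorem row_unit (ρ : G →* Matrix I I ℤ) {z : G} (hz : ∀ l, l ≠ c → ρ z a l = 0) :
    ρ z a c = 1 ∨ ρ z a c = -1 := by
  have := row_mul ρ hz z⁻¹ a
  rw [mul_inv_cancel, rho_one, if_pos rfl] at this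
  exact Int.eq_one_or_neg_one_of_mul_eq_one this.symm

/-- both indices in `{i, d}` -/
def p2 (i d : I) : I → I → Prop := fun a b => (a = i ∨ a = d) ∧ (b = i ∨ b = d)

/-- positive words in two letters -/
inductive Pos (X Y : G) : G → Prop
  | one : Pos X Y 1
  | x {m : G} : Pos X Y m → Pos X Y (m * X)
  | y {m : G} : Pos X Y m → Pos X Y (m * Y)

omit [Fintype I] [DecidableEq I] in
theorem St.ww_comm (h : St x) (hid : i ≠ d) (t : ℤ) :
    w x i d * w x i d * x d i t = x d i t * (w x i d * w x i d) := by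
  have : cj (w x i d * w x i d) (x d i t) = x d i t := by
    rw [mul_cj, h.w_ji hid, h.w_ij hid, neg_neg]
  rwa [cj, mul_inv_eq_iff_eq_mul] at this

omit [Fintype I] [DecidableEq I] in
theorem St.ww_comm' (h : St x) (hid : i ≠ d) (t : ℤ) :
    w x i d * w x i d * x i d t = x i d t * (w x i d * w x i d) := by
  have : cj (w x i d * w x i d) (x i d t) = x i d t := by
    rw [mul_cj, h.w_ij hid, h.w_ji hid, neg_neg]
  rwa [cj, mul_inv_eq_iff_eq_mul] at this

omit [Fintype I] [DecidableEq I] in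
theorem St.ww_ww (h : St x) (hid : i ≠ d) : w x i d * w x i d * (w x i d * w x i d) = 1 := by
  rw [← h.w4 hid]; simp [pow_succ, mul_assoc]

theorem Rep.sl2 (hρ : Rep x ρ) (h : St x) (hid : i ≠ d) {δ : G} (hδ : δ ∈ E x (p2 i d))
    (h0 : ρ δ i d = 0) : ∃ t, δ = x d i t ∨ δ = x d i t * (w x i d * w x i d) := by
  set X := x i d 1 with hX
  set Y := x d i 1 with hY
  set W := w x i d with hW
  let H : G → Prop := fun g => ∃ t, g = x d i t ∨ g = x d i t * (W * W)
  let Good : G → Prop := fun g => ∃ u m, H u ∧ Pos X Y m ∧ (g = u * m ∨ g = u * m * W)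
  have HW : ∀ u, H u → H (u * (W * W)) := by
    rintro _ ⟨t, rfl | rfl⟩
    · exact ⟨t, Or.inr rfl⟩
    · exact ⟨t, Or.inl (by rw [mul_assoc, h.ww_ww hid, mul_one])⟩
  have HY : ∀ u s, H u → H (u * x d i s) := by
    rintro _ s ⟨t, rfl | rfl⟩
    · exact ⟨t + s, Or.inl (h.add hid.symm _ _).symm⟩
    · exact ⟨t + s, Or.inr (by rw [mul_assoc, h.ww_comm hid, ← mul_assoc, h.add hid.symm])⟩
  have cen : ∀ m, Pos X Y m → m * (W * W) = W * W * m := by
    intro m hm
    induction hm with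
    | one => simp
    | x _ ih => rw [mul_assoc, ← h.ww_comm' hid, ← mul_assoc, ih, mul_assoc]
    | y _ ih => rw [mul_assoc, ← h.ww_comm hid, ← mul_assoc, ih, mul_assoc]
  have WX : W * X = Y⁻¹ * W := by
    have := h.w_ij hid 1
    rwa [cj, mul_inv_eq_iff_eq_mul, ← h.inv hid.symm] at this
  have WX' : W * X⁻¹ = Y * W := by
    have := h.w_ij hid (-1)
    rwa [cj, mul_inv_eq_iff_eq_mul, neg_neg, ← h.inv hid] at this
  have hWd : W = X * Y⁻¹ * X := by rw [hY, h.inv hid.symm]; rfl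
  have gW : ∀ g, Good g → Good (g * W) := by
    rintro _ ⟨u, m, hu, hm, rfl | rfl⟩
    · exact ⟨u, m, hu, hm, Or.inr rfl⟩
    · exact ⟨_, m, HW u hu, hm, Or.inl (by rw [mul_assoc, mul_assoc, cen m hm, mul_assoc u])⟩
  have gX : ∀ g, Good g → Good (g * X) := by
    rintro _ ⟨u, m, hu, hm, rfl | rfl⟩
    · exact ⟨u, _, hu, hm.x, Or.inl (mul_assoc _ _ _)⟩
    · rw [mul_assoc, WX]
      cases hm with
      | one =>
        exact ⟨_, 1, HY u (-1) hu, Pos.one, Or.inr (by rw [← h.inv hid.symm]; simp [hY, mul_assoc])⟩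
      | @x m hm =>
        have e : u * (m * X) * (Y⁻¹ * W) = u * (m * Y) * W * W := by
          have : X * Y⁻¹ = Y * W := by rw [← WX', hWd]; simp
          calc u * (m * X) * (Y⁻¹ * W) = u * m * (X * Y⁻¹) * W := by simp [mul_assoc]
            _ = _ := by rw [this]; simp [mul_assoc]
        rw [e]
        exact gW _ ⟨u, _, hu, hm.y, Or.inr rfl⟩
      | @y m hm => exact ⟨u, m, hu, hm, Or.inr (by simp [mul_assoc])⟩
  have gW' : ∀ g, Good g → Good (g * W⁻¹) := by
    intro g hg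
    have : W⁻¹ = W * W * W := by
      rw [inv_eq_iff_mul_eq_one, ← h.ww_ww hid]; simp [hW, mul_assoc]
    rw [this, ← mul_assoc, ← mul_assoc]
    exact gW _ (gW _ (gW _ hg))
  have gY' : ∀ g, Good g → Good (g * Y⁻¹) := by
    intro g hg
    have : g * Y⁻¹ = g * W * X * W⁻¹ := by rw [mul_assoc g, WX]; simp [mul_assoc]
    rw [this]
    exact gW' _ (gX _ (gW _ hg))
  have gX' : ∀ g, Good g → Good (g * X⁻¹) := by
    intro g hg
    have : g * X⁻¹ = g * Y⁻¹ * X * W⁻¹ := by rw [hWd]; simp [mul_assoc]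
    rw [this]
    exact gW' _ (gX _ (gY' _ hg))
  have gY : ∀ g, Good g → Good (g * Y) := by
    intro g hg
    have : g * Y = g * W * X⁻¹ * W⁻¹ := by rw [mul_assoc g, WX']; simp [mul_assoc]
    rw [this]
    exact gW' _ (gX' _ (gW _ hg))
  have gz : ∀ Z : G, (∀ g, Good g → Good (g * Z)) → (∀ g, Good g → Good (g * Z⁻¹)) →
      ∀ t : ℤ, ∀ g, Good g → Good (g * Z ^ t) := by
    intro Z h1 h2 t g hg
    induction t using Int.induction_on with
    | zero => simpa using hg
    | succ n ih => rw [_root_.zpow_add_one, ← mul_assoc]; exact h1 _ ih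
    | pred n ih => rw [_root_.zpow_sub_one, ← mul_assoc]; exact h2 _ ih
  have H1 : H 1 := ⟨0, Or.inl (h.zero hid.symm).symm⟩
  have gδ : Good δ := by
    refine h.E_ind (Q := Good) ⟨1, 1, H1, Pos.one, Or.inl (by simp)⟩ ?_ hδ
    rintro g a b t hab ⟨rfl | rfl, rfl | rfl⟩ - hg
    · exact absurd rfl hab
    · have := gz X gX gX' t g hg
      rwa [h.zpow hid, one_mul] at this
    · have := gz Y gY gY' t g hg
      rwa [h.zpow hid.symm, one_mul] at this
    · exact absurd rfl hab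
  have inv : ∀ m, Pos X Y m → 0 ≤ ρ m i d ∧ 1 ≤ ρ m i i ∧ (ρ m i d = 0 → ∃ t, m = x d i t) := by
    intro m hm
    induction hm with
    | one =>
      rw [rho_one, rho_one, if_neg hid.symm, if_pos rfl]
      exact ⟨le_rfl, le_rfl, fun _ => ⟨0, (h.zero hid.symm).symm⟩⟩
    | x _ ih =>
      rw [hρ.mul_x hid, hρ.mul_x hid, if_pos rfl, if_neg hid]
      refine ⟨by omega, by omega, fun e => by omega⟩
    | y _ ih =>
      rw [hρ.mul_x hid.symm, hρ.mul_x hid.symm, if_pos rfl, if_neg hid.symm]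
      refine ⟨by omega, by omega, fun e => ?_⟩
      obtain ⟨t, rfl⟩ := ih.2.2 (by omega)
      exact ⟨t + 1, (h.add hid.symm _ _).symm⟩
  obtain ⟨u, m, hu, hm, e⟩ := gδ
  have hrow : ∀ l, l ≠ i → ρ u i l = 0 := by
    intro l hl
    have r1 : ∀ t l, ρ (x d i t) i l = if l = i then 1 else 0 := fun t l =>
      hρ.row_E h.toSt0 (p := fun a _ => a = d) (E_mem hid.symm rfl t) (fun _ => hid) l
    obtain ⟨t, rfl | rfl⟩ := hu
    · rw [r1, if_neg hl]
    · rw [← mul_assoc]
      simp only [hW, hρ.mul_w hid, r1]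
      by_cases h1 : l = d <;> simp [h1, hl, hid, hid.symm]
  have hun : ρ u i i ≠ 0 := by rcases row_unit ρ hrow with e | e <;> rw [e] <;> norm_num
  obtain ⟨-, h2, h3⟩ := inv m hm
  rcases e with rfl | rfl
  · rw [row_mul ρ hrow] at h0
    obtain ⟨t, rfl⟩ := h3 ((mul_eq_zero.1 h0).resolve_left hun)
    exact HY u t hu
  · rw [hW, hρ.mul_w hid, if_pos rfl, row_mul ρ hrow] at h0
    have := (mul_eq_zero.1 h0).resolve_left hun
    omega

end Pool.Agent.Lib.MP_755cca_al.Tr
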