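import Pool.Agent.Lib.MP_755cca_al.Tr.B

/-! Base points, and vectors with two coordinates. -/

namespace Pool.Agent.Lib.MP_755cca_al.Tr

variable {I : Type} [DecidableEq I] {G : Type} [Group G]

/-- both indices in `J` -/
def pG (J : Finset I) : I → I → Prop := fun i j => i ∈ J ∧ j ∈ J

/-- both indices in `J`, the first one not `m` -/
def pP (J : Finset I) (m : I) : I → I → Prop := fun i j => i ∈ J ∧ j ∈ J ∧ i ≠ m

/-- first index in `J`, second index `m` -/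
def pN (J : Finset I) (m : I) : I → I → Prop := fun i j => i ∈ J ∧ j = m

/-- both indices in `J`, the first one neither `m` nor `d` -/
def pQ (J : Finset I) (m d : I) : I → I → Prop := fun i j => i ∈ J ∧ j ∈ J ∧ i ≠ m ∧ i ≠ d

variable {x : I → I → ℤ → G} {J : Finset I} {i j k l d a b c m : I}

theorem swap_mem (hi : i ∈ J) (hj : j ∈ J) (hk : k ∈ J) : Equiv.swap i j k ∈ J := by
  rw [Equiv.swap_apply_def]; split_ifs <;> assumption

theorem St.cj_w_P (h : St x) (hij : i ≠ j) (hi : i ∈ J) (hj : j ∈ J) {y : G}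
    (hy : y ∈ E x (pP J m)) : cj (w x i j) y ∈ E x (pP J (Equiv.swap i j m)) :=
  h.cj_w_E hij (fun _ _ _ hp => ⟨swap_mem hi hj hp.1, swap_mem hi hj hp.2.1,
    fun e => hp.2.2 ((Equiv.swap i j).injective e)⟩) hy

theorem St.cj_w_2 (h : St x) (hij : i ≠ j) {y : G} (hy : y ∈ E x (p2 k l)) :
    cj (w x i j) y ∈ E x (p2 (Equiv.swap i j k) (Equiv.swap i j l)) :=
  h.cj_w_E hij (fun _ _ _ hp => ⟨hp.1.imp (congrArg _) (congrArg _),
    hp.2.imp (congrArg _) (congrArg _)⟩) hy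

/-- the parabolic subgroup extended by a sign -/
def St.Pm (h : St x) (hab : a ≠ b) (ha : a ∈ J) (hb : b ∈ J) : Subgroup G where
  carrier := {g | g ∈ E x (pP J a) ∨ g * (w x a b * w x a b) ∈ E x (pP J a)}
  one_mem' := Or.inl (one_mem _)
  mul_mem' := by
    have n : ∀ y ∈ E x (pP J a), cj (w x a b * w x a b) y ∈ E x (pP J a) := fun y hy => by
      have := h.cj_w_P hab ha hb (h.cj_w_P hab ha hb hy)
      rwa [Equiv.swap_apply_self, ← mul_cj] at this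
    have s := h.ww_ww hab
    generalize w x a b * w x a b = σ at *
    have s' : σ⁻¹ = σ := inv_eq_of_mul_eq_one_right s
    rintro g g' (hg | hg) (hg' | hg')
    · exact Or.inl (mul_mem hg hg')
    · exact Or.inr (by rw [mul_assoc]; exact mul_mem hg hg')
    · refine Or.inr ?_
      have := mul_mem hg (n _ hg')
      rwa [cj, s', ← mul_assoc, ← mul_assoc, mul_assoc g, s, mul_one] at this
    · refine Or.inl ?_
      have := mul_mem hg (n _ hg')
      rwa [cj, ← mul_assoc, ← mul_assoc, mul_assoc g, s, mul_one, ← mul_assoc,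
        mul_inv_cancel_right] at this
  inv_mem' := by
    have n : ∀ y ∈ E x (pP J a), cj (w x a b * w x a b) y ∈ E x (pP J a) := fun y hy => by
      have := h.cj_w_P hab ha hb (h.cj_w_P hab ha hb hy)
      rwa [Equiv.swap_apply_self, ← mul_cj] at this
    have s := h.ww_ww hab
    generalize w x a b * w x a b = σ at *
    have s' : σ⁻¹ = σ := inv_eq_of_mul_eq_one_right s
    rintro g (hg | hg)
    · exact Or.inl (inv_mem hg)
    · refine Or.inr ?_
      have := n _ (inv_mem hg)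
      rwa [cj, mul_inv_rev, mul_inv_cancel_left, s'] at this

/-- coset representatives -/
def tt (x : I → I → ℤ → G) (a c : I) : G := if c = a then 1 else w x a c

section O

variable (h : St x) (hab : a ≠ b) (ha : a ∈ J) (hb : b ∈ J)

/-- the base points over `± e_c` -/
def St.O (c : I) (g : G) : Prop := g * (tt x a c)⁻¹ ∈ h.Pm hab ha hb

theorem St.P_le {g : G} (hg : g ∈ E x (pP J a)) : g ∈ h.Pm hab ha hb := Or.inl hg

theorem St.wsq (hd : d ∈ J) (hda : d ≠ a) : w x a d * w x a d ∈ h.Pm hab ha hb := by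
  have s : w x a b * w x a b ∈ h.Pm hab ha hb := Or.inr (by rw [h.ww_ww hab]; exact one_mem _)
  by_cases hdb : d = b
  · subst hdb; exact s
  have hbd : b ≠ d := Ne.symm hdb
  have e : cj (w x b d) (w x a b) = w x d a := by
    rw [h.braid hda]
    conv_lhs => arg 2; rw [w]
    rw [cj_mul, cj_mul, h.w_ki hbd hda.symm hab, h.w_ik hbd hda hab.symm, neg_neg]
  have m1 : w x b d ∈ h.Pm hab ha hb :=
    h.P_le hab ha hb (w_mem hbd ⟨hb, hd, hab.symm⟩ ⟨hd, hb, hda⟩)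
  have m2 : cj (w x b d) (w x a b * w x a b) ∈ h.Pm hab ha hb :=
    mul_mem (mul_mem m1 s) (inv_mem m1)
  rw [cj_mul, e, ← h.w_inv hda.symm, ← mul_inv_rev] at m2
  exact inv_mem_iff.1 m2

theorem St.O_one : h.O hab ha hb a 1 := by
  simp only [St.O, tt, if_true, inv_one, mul_one]; exact one_mem _

theorem St.O_P (hc : c ∈ J) {g q : G} (hg : h.O hab ha hb c g) (hq : q ∈ E x (pP J c)) :
    h.O hab ha hb c (g * q) := by
  have e : g * q * (tt x a c)⁻¹ = g * (tt x a c)⁻¹ * cj (tt x a c) q := by simp [cj, mul_assoc]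
  rw [St.O, e]
  refine mul_mem hg (h.P_le hab ha hb ?_)
  unfold tt
  split_ifs with hca
  · rw [one_cj]; exact hca ▸ hq
  · have := h.cj_w_P (Ne.symm hca) ha hc hq
    rwa [Equiv.swap_apply_right] at this

theorem St.O_w (hc : c ∈ J) (hd : d ∈ J) (hcd : c ≠ d) {g : G} (hg : h.O hab ha hb c g) :
    h.O hab ha hb d (g * w x c d) ∧ h.O hab ha hb d (g * w x d c) := by
  unfold St.O tt at *
  by_cases hca : c = a
  · subst hca
    rw [if_pos rfl, inv_one, mul_one] at hg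
    rw [if_neg hcd.symm, mul_inv_cancel_right, ← h.w_inv hcd, mul_assoc, ← mul_inv_rev]
    exact ⟨hg, mul_mem hg (inv_mem (h.wsq hab ha hb hd hcd.symm))⟩
  rw [if_neg hca] at hg
  by_cases hda : d = a
  · subst hda
    rw [if_pos rfl, inv_one, mul_one, mul_one, ← h.w_inv hcd.symm]
    refine ⟨hg, ?_⟩
    have := mul_mem hg (h.wsq hab ha hb hc hca)
    rwa [← mul_assoc, inv_mul_cancel_right] at this
  rw [if_neg hda]
  have hac : a ≠ c := Ne.symm hca
  have had : a ≠ d := Ne.symm hda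
  have e1 : cj (w x d c) (w x a c) = w x a d := by
    conv_lhs => arg 2; rw [w]
    rw [cj_mul, cj_mul, h.w_kj hcd.symm hac had, h.w_jk hcd.symm hca hda]; rfl
  have e2 : cj (w x c d) (w x a c) = w x d a := by
    rw [h.braid hda]
    conv_lhs => arg 2; rw [w]
    rw [cj_mul, cj_mul, h.w_ki hcd had hac, h.w_ik hcd hda hca, neg_neg]
  have m1 : w x c d ∈ h.Pm hab ha hb := h.P_le hab ha hb (w_mem hcd ⟨hc, hd, hca⟩ ⟨hd, hc, hda⟩)
  rw [← h.w_inv hcd] at e1 ⊢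
  rw [← h.w_inv had] at e2
  constructor
  · have : g * w x c d * (w x a d)⁻¹ = g * (w x a c)⁻¹ * w x c d := by
      rw [← e1]; simp [cj, mul_assoc]
    rw [this]
    exact mul_mem hg m1
  · have : g * (w x c d)⁻¹ * (w x a d)⁻¹ =
        g * (w x a c)⁻¹ * (w x c d)⁻¹ * (w x a d * w x a d)⁻¹ := by
      rw [mul_inv_rev, ← e2]; simp [cj, mul_assoc]
    rw [this]
    exact mul_mem (mul_mem hg (inv_mem m1)) (inv_mem (h.wsq hab ha hb hd hda))

/-- base point times a rank one subgroup -/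
def St.Z (i k : I) (g : G) : Prop := ∃ o δ, h.O hab ha hb i o ∧ δ ∈ E x (p2 i k) ∧ g = o * δ

/-- the same times a parabolic subgroup -/
def St.Y (m : I) (g : G) : Prop :=
  ∃ d z q, d ∈ J ∧ d ≠ m ∧ h.Z hab ha hb m d z ∧ q ∈ E x (pP J m) ∧ g = z * q

omit [DecidableEq I] in
theorem p2_symm {y : G} (hy : y ∈ E x (p2 i k)) : y ∈ E x (p2 k i) :=
  E_mono (fun _ _ _ hp => ⟨hp.1.symm, hp.2.symm⟩) hy

omit [DecidableEq I] in
theorem w_mem2 (hik : i ≠ k) : w x i k ∈ E x (p2 i k) :=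
  w_mem hik ⟨Or.inl rfl, Or.inr rfl⟩ ⟨Or.inr rfl, Or.inl rfl⟩

theorem St.Z_mul {g δ : G} (hg : h.Z hab ha hb i k g) (hδ : δ ∈ E x (p2 i k)) :
    h.Z hab ha hb i k (g * δ) := by
  obtain ⟨o, δ', h1, h2, rfl⟩ := hg
  exact ⟨o, _, h1, mul_mem h2 hδ, mul_assoc _ _ _⟩

theorem St.O_Z {g : G} (hg : h.O hab ha hb i g) : h.Z hab ha hb i k g :=
  ⟨g, 1, hg, one_mem _, (mul_one _).symm⟩

theorem St.Z_symm (hi : i ∈ J) (hk : k ∈ J) (hik : i ≠ k) {g : G} (hg : h.Z hab ha hb i k g) :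
    h.Z hab ha hb k i g := by
  obtain ⟨o, δ, h1, h2, rfl⟩ := hg
  exact ⟨o * w x i k, (w x i k)⁻¹ * δ, (h.O_w hab ha hb hi hk hik h1).1,
    p2_symm (mul_mem (inv_mem (w_mem2 hik)) h2), by simp [mul_assoc]⟩

theorem St.Y_P {g q : G} (hg : h.Y hab ha hb m g) (hq : q ∈ E x (pP J m)) :
    h.Y hab ha hb m (g * q) := by
  obtain ⟨d, z, q', h1, h2, h3, h4, rfl⟩ := hg
  exact ⟨d, z, _, h1, h2, h3, mul_mem h4 hq, mul_assoc _ _ _⟩

theorem St.Z_Y (hi : i ∈ J) (hk : k ∈ J) (hik : i ≠ k) (hm : m ∈ J) {g : G}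
    (hg : h.Z hab ha hb i k g) : h.Y hab ha hb m g := by
  by_cases hmi : m = i
  · subst hmi; exact ⟨k, g, 1, hk, hik.symm, hg, one_mem _, (mul_one _).symm⟩
  by_cases hmk : m = k
  · subst hmk
    exact ⟨i, g, 1, hi, hik, h.Z_symm hab ha hb hi hk hik hg, one_mem _, (mul_one _).symm⟩
  obtain ⟨o, δ, h1, h2, rfl⟩ := hg
  refine ⟨i, o, δ, hi, Ne.symm hmi,
    h.Z_symm hab ha hb hi hm (Ne.symm hmi) (h.O_Z hab ha hb h1), E_mono ?_ h2, rfl⟩
  rintro _ _ - ⟨rfl | rfl, rfl | rfl⟩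
  exacts [⟨hi, hi, Ne.symm hmi⟩, ⟨hi, hk, Ne.symm hmi⟩, ⟨hk, hi, Ne.symm hmk⟩,
    ⟨hk, hk, Ne.symm hmk⟩]

theorem St.Z_Q (hi : i ∈ J) (hd : d ∈ J) {g y : G} (hg : h.Z hab ha hb i d g)
    (hy : y ∈ E x (pQ J i d)) : h.Z hab ha hb i d (g * y) := by
  obtain ⟨o, δ, h1, h2, rfl⟩ := hg
  have n : cj δ y ∈ E x (pQ J i d) := by
    refine h.E_norm ?_ h2 hy
    intro u v s k l t huv hp hkl hq
    have hku : k ≠ u := by rcases hp.1 with rfl | rfl; exacts [hq.2.2.1, hq.2.2.2]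
    have hkv : k ≠ v := by rcases hp.2 with rfl | rfl; exacts [hq.2.2.1, hq.2.2.2]
    have hv : v ∈ J := by rcases hp.2 with rfl | rfl; exacts [hi, hd]
    by_cases hul : u = l
    · subst hul
      rw [h.cj_r huv hku hkv]
      exact mul_mem (E_mem hkv ⟨hq.1, hv, hq.2.2⟩ _) (E_mem hku hq _)
    · rw [h.cj_comm huv hkl hkv.symm hul]; exact E_mem hkl hq _
  refine ⟨o * cj δ y, δ, h.O_P hab ha hb hi h1 (E_mono ?_ n), h2, by simp [cj, mul_assoc]⟩
  exact fun _ _ _ hq => ⟨hq.1, hq.2.1, hq.2.2.1⟩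

theorem St.Z_N (hi : i ∈ J) (hd : d ∈ J) {g y : G} (hg : h.Z hab ha hb i d g)
    (hy : y ∈ E x (pN J i)) : h.Z hab ha hb i d (g * y) := by
  refine h.E_stab (Q := h.Z hab ha hb i d) ?_ hg hy
  rintro g j _ t hji ⟨hj, rfl⟩ hg
  by_cases hjd : j = d
  · exact h.Z_mul hab ha hb hg (E_mem hji ⟨Or.inr hjd, Or.inl rfl⟩ t)
  · exact h.Z_Q hab ha hb hi hd hg (E_mem hji ⟨hj, hi, hji, hjd⟩ t)

end O

theorem St0.N_gen (h : St0 x) (u v : I) (s : ℤ) (k l : I) (t : ℤ) (huv : u ≠ v)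
    (hp : pG (J.erase i) u v) (hkl : k ≠ l) (hq : pN J i k l) :
    cj (x u v s) (x k l t) ∈ E x (pN J i) := by
  obtain ⟨hk, rfl⟩ := hq
  have hu := Finset.mem_erase.1 hp.1
  by_cases hvk : v = k
  · subst hvk
    rw [h.cj_l huv hkl hu.1]
    exact mul_mem (E_mem hu.1 ⟨hu.2, rfl⟩ _) (E_mem hkl ⟨hk, rfl⟩ _)
  · rw [h.cj_comm huv hkl hvk hu.1]; exact E_mem hkl ⟨hk, rfl⟩ _

theorem St0.P_split (h : St0 x) {q : G} (hq : q ∈ E x (pP J i)) :
    ∃ γ ∈ E x (pG (J.erase i)), ∃ ν ∈ E x (pN J i), q = γ * ν := by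
  refine h.E_split h.N_gen ?_ hq
  intro u v _ hp
  by_cases hv : v = i
  · exact Or.inr ⟨hp.1, hv⟩
  · exact Or.inl ⟨Finset.mem_erase.2 ⟨hp.2.2, hp.1⟩, Finset.mem_erase.2 ⟨hv, hp.2.1⟩⟩

end Pool.Agent.Lib.MP_755cca_al.Tr
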