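import Pool.Agent.Lib.MP_755cca_al.Tr.C

/-! The stabiliser of a basis row vector is the parabolic subgroup. -/

namespace Pool.Agent.Lib.MP_755cca_al.Tr

variable {I : Type} [Fintype I] [DecidableEq I] {G : Type} [Group G]
  {x : I → I → ℤ → G} {ρ : G →* Matrix I I ℤ} {J : Finset I} {i j k l d a b c m : I}

/-- the stabiliser statement for the index set `J` -/
def StabP (x : I → I → ℤ → G) (ρ : G →* Matrix I I ℤ) (J : Finset I) : Prop :=
  ∀ a ∈ J, ∀ g ∈ E x (pG J), (∀ l ∈ J, ρ g a l = if l = a then 1 else 0) → g ∈ E x (pP J a)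

theorem Rep.mul_ww (hρ : Rep x ρ) (hij : i ≠ j) (g : G) (a l : I) :
    ρ (g * (w x i j * w x i j)) a l = if l = i ∨ l = j then -ρ g a l else ρ g a l := by
  rw [← mul_assoc]
  simp only [hρ.mul_w hij]
  by_cases h1 : l = j
  · subst h1; simp [hij]
  · by_cases h2 : l = i
    · subst h2; simp [hij]
    · simp [h1, h2]

theorem Rep.stab_pm (hρ : Rep x ρ) (h : St x) (hS : StabP x ρ J) (hd : d ∈ J) (hk : k ∈ J)
    (hl : l ∈ J) (hld : l ≠ d) {γ : G} (hγ : γ ∈ E x (pG J))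
    (h0 : ∀ l ∈ J, l ≠ k → ρ γ d l = 0) :
    ∃ σ ∈ E x (pG J), γ * σ ∈ E x (pP J d) ∧
      ∀ i, i ∉ J → ∀ δ ∈ E x (p2 i d), cj σ δ ∈ E x (p2 i k) := by
  have hrow : ∀ l, l ≠ k → ρ γ d l = 0 := fun l hlk => by
    by_cases hl : l ∈ J
    · exact h0 l hl hlk
    · rw [hρ.col_E' h.toSt0 hγ (fun _ hp => hl hp.2), if_neg (fun e : l = d => hl (e ▸ hd))]
  have sw : ∀ i u v, i ∉ J → u ∈ J → v ∈ J → Equiv.swap u v i = i := fun i u v hi hu hv =>
    Equiv.swap_apply_of_ne_of_ne (fun e => hi (e ▸ hu)) (fun e => hi (e ▸ hv))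
  by_cases hkd : k = d
  · subst hkd
    rcases row_unit ρ hrow with e | e
    · refine ⟨1, one_mem _, hS k hk _ (by rwa [mul_one]) fun l _ => ?_,
        fun i _ δ hδ => by rwa [one_cj]⟩
      rw [mul_one]
      split_ifs with h1
      · rw [h1, e]
      · exact hrow l h1
    · have m1 : w x k l ∈ E x (pG J) := w_mem hld.symm ⟨hk, hl⟩ ⟨hl, hk⟩
      refine ⟨w x k l * w x k l, mul_mem m1 m1,
        hS k hk _ (mul_mem hγ (mul_mem m1 m1)) fun u _ => ?_, fun i hi δ hδ => ?_⟩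
      · rw [hρ.mul_ww hld.symm]
        by_cases h1 : u = k
        · simp [h1, e]
        · simp [h1, hrow u h1]
      · have := h.cj_w_2 hld.symm (h.cj_w_2 hld.symm hδ)
        rwa [Equiv.swap_apply_self, Equiv.swap_apply_self, ← mul_cj] at this
  have hdk : d ≠ k := Ne.symm hkd
  rcases row_unit ρ hrow with e | e
  · have m1 : w x k d ∈ E x (pG J) := w_mem hkd ⟨hk, hd⟩ ⟨hd, hk⟩
    refine ⟨w x k d, m1, hS d hd _ (mul_mem hγ m1) fun u _ => ?_, fun i hi δ hδ => ?_⟩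
    · rw [hρ.mul_w hkd, e, hrow d hdk]
      split_ifs with h1 h2
      · rfl
      · rfl
      · exact hrow u h2
    · have := h.cj_w_2 hkd hδ
      rwa [sw i k d hi hk hd, Equiv.swap_apply_right] at this
  · have m1 : w x d k ∈ E x (pG J) := w_mem hdk ⟨hd, hk⟩ ⟨hk, hd⟩
    refine ⟨w x d k, m1, hS d hd _ (mul_mem hγ m1) fun u _ => ?_, fun i hi δ hδ => ?_⟩
    · rw [hρ.mul_w hdk, e, hrow d hdk]
      by_cases h1 : u = k
      · rw [if_pos h1, if_neg (h1 ▸ hkd)]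
      · rw [if_neg h1]
        split_ifs with h2
        · rfl
        · exact hrow u h1
    · have := h.cj_w_2 hdk hδ
      rwa [sw i d k hi hd hk, Equiv.swap_apply_left] at this

section Main

variable (hρ : Rep x ρ) (h : St x) (hab : a ≠ b) (ha : a ∈ J) (hb : b ∈ J)
include hρ

theorem Rep.Pm_row {g : G} (hg : g ∈ h.Pm hab ha hb) (hl : l ≠ a) : ρ g a l = 0 := by
  rcases hg with hg | hg
  · rw [hρ.row_E h.toSt0 hg (fun _ hp => hp.2.2 rfl), if_neg hl]
  · have := hρ.row_E h.toSt0 hg (c := a) (fun _ hp => hp.2.2 rfl) l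
    rw [hρ.mul_ww hab, if_neg hl] at this
    split_ifs at this with h1
    · exact neg_eq_zero.1 this
    · exact this

theorem Rep.O_row {g : G} (hg : h.O hab ha hb c g) (hl : l ≠ c) : ρ g a l = 0 := by
  unfold St.O tt at hg
  split_ifs at hg with hca
  · rw [inv_one, mul_one] at hg
    exact hρ.Pm_row h hab ha hb hg (hca ▸ hl)
  · rw [← inv_mul_cancel_right g (w x a c), hρ.mul_w (Ne.symm hca), if_neg hl]
    split_ifs with h1
    · rw [hρ.Pm_row h hab ha hb hg hca, neg_zero]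
    · exact hρ.Pm_row h hab ha hb hg h1

theorem Rep.O_base {g : G} (hg : h.O hab ha hb a g) (h1 : ρ g a a = 1) : g ∈ E x (pP J a) := by
  simp only [St.O, tt, if_true, inv_one, mul_one] at hg
  rcases hg with hg | hg
  · exact hg
  · have := hρ.row_E h.toSt0 hg (c := a) (fun _ hp => hp.2.2 rfl) a
    rw [hρ.mul_ww hab, if_pos (Or.inl rfl), if_pos rfl, h1] at this
    omega

theorem Rep.Z_row {z : G} (hz : h.Z hab ha hb i d z) (hli : l ≠ i) (hld : l ≠ d) :
    ρ z a l = 0 := by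
  obtain ⟨o, δ, h1, h2, rfl⟩ := hz
  rw [hρ.col_E h.toSt0 h2 (fun _ hp => hp.2.elim hli hld), hρ.O_row h hab ha hb h1 hli]

theorem Rep.Z_O (hi : i ∈ J) (hd : d ∈ J) (hid : i ≠ d) {z : G} (hz : h.Z hab ha hb i d z)
    (h0 : ρ z a d = 0) : h.O hab ha hb i z := by
  obtain ⟨o, δ, h1, h2, rfl⟩ := hz
  have hrow : ∀ l, l ≠ i → ρ o a l = 0 := fun l hl => hρ.O_row h hab ha hb h1 hl
  have hun : ρ o a i ≠ 0 := by rcases row_unit ρ hrow with e | e <;> rw [e] <;> norm_num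
  rw [row_mul ρ hrow] at h0
  obtain ⟨t, e⟩ := hρ.sl2 h hid h2 ((mul_eq_zero.1 h0).resolve_left hun)
  have o1 := h.O_P hab ha hb hi h1 (E_mem (p := pP J i) hid.symm ⟨hd, hi, hid.symm⟩ t)
  rcases e with rfl | rfl
  · exact o1
  · rw [← mul_assoc, ← mul_assoc]
    exact (h.O_w hab ha hb hd hi hid.symm (h.O_w hab ha hb hi hd hid o1).1).2

theorem Rep.Y_Z (h3 : ∀ i j, ∃ l ∈ J, l ≠ i ∧ l ≠ j) (hi : i ∈ J) (hk : k ∈ J) (hik : i ≠ k)
    (hS : StabP x ρ (J.erase i)) {g : G} (hg : h.Y hab ha hb i g)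
    (h0 : ∀ l ∈ J, l ≠ i → l ≠ k → ρ g a l = 0) : h.Z hab ha hb i k g := by
  obtain ⟨d, z, q, hd, hdi, hz, hq, rfl⟩ := hg
  by_cases hα : ρ z a d = 0
  · exact h.O_Z hab ha hb (h.O_P hab ha hb hi (hρ.Z_O h hab ha hb hi hd hdi.symm hz hα) hq)
  obtain ⟨γ, hγ, ν, hν, rfl⟩ := h.P_split hq
  obtain ⟨l, hl, hli, hld⟩ := h3 i d
  obtain ⟨σ, hσ, h1, h2⟩ := hρ.stab_pm h hS (Finset.mem_erase.2 ⟨hdi, hd⟩)
    (Finset.mem_erase.2 ⟨hik.symm, hk⟩) (Finset.mem_erase.2 ⟨hli, hl⟩) hld hγ (fun u hu huk => by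
      have hu' := Finset.mem_erase.1 hu
      have := h0 u hu'.2 hu'.1 huk
      rw [← mul_assoc, hρ.col_E h.toSt0 hν (fun _ hp => hu'.1 hp.2),
        row_mul2 ρ hdi.symm (fun l h1 h2 => hρ.Z_row h hab ha hb hz h1 h2),
        hρ.row_E h.toSt0 hγ (fun _ hp => (Finset.mem_erase.1 hp.1).1 rfl), if_neg hu'.1,
        mul_zero, zero_add] at this
      exact (mul_eq_zero.1 this).resolve_left hα)
  have z1 : h.Z hab ha hb i d (z * (γ * σ)) := by
    refine h.Z_Q hab ha hb hi hd hz (E_mono ?_ h1)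
    intro u v _ hp
    exact ⟨(Finset.mem_erase.1 hp.1).2, (Finset.mem_erase.1 hp.2.1).2,
      (Finset.mem_erase.1 hp.1).1, hp.2.2⟩
  obtain ⟨o, δ, o1, o2, e⟩ := h.Z_N hab ha hb hi hd z1 (h.E_norm h.N_gen (inv_mem hσ) hν)
  refine ⟨o * σ⁻¹, cj σ δ, h.O_P hab ha hb hi o1 (E_mono ?_ (inv_mem hσ)),
    h2 i (Finset.notMem_erase i J) δ o2, ?_⟩
  · intro u v _ hp
    exact ⟨(Finset.mem_erase.1 hp.1).2, (Finset.mem_erase.1 hp.2).2, (Finset.mem_erase.1 hp.1).1⟩
  · calc z * (γ * ν) = z * (γ * σ) * cj σ⁻¹ ν * σ⁻¹ := by simp [cj, mul_assoc]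
      _ = _ := by rw [e]; simp [cj, mul_assoc]

omit h hab ha hb in
theorem Rep.descend (hk : k ∈ J) (hik : i ≠ k) (g : G) (h1 : ρ g a i ≠ 0)
    (h2 : (ρ g a i).natAbs ≤ (ρ g a k).natAbs) :
    ∃ t, ∑ l ∈ J, (ρ (g * x i k t) a l).natAbs < ∑ l ∈ J, (ρ g a l).natAbs := by
  obtain ⟨t, ht⟩ : ∃ t, (ρ g a k + t * ρ g a i).natAbs < (ρ g a k).natAbs := by
    by_cases h3 : (ρ g a k + 1 * ρ g a i).natAbs < (ρ g a k).natAbs
    · exact ⟨1, h3⟩
    · exact ⟨-1, by omega⟩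
  refine ⟨t, Finset.sum_lt_sum (fun l _ => ?_) ⟨k, hk, ?_⟩⟩
  · rw [hρ.mul_x hik]
    split_ifs with e
    · rw [e]; exact ht.le
    · rw [add_zero]
  · rw [hρ.mul_x hik, if_pos rfl]; exact ht

theorem Rep.Y_all (h3 : ∀ i j, ∃ l ∈ J, l ≠ i ∧ l ≠ j) (hS : ∀ i ∈ J, StabP x ρ (J.erase i))
    (N : ℕ) : ∀ g : G, ∑ l ∈ J, (ρ g a l).natAbs < N → ∀ m ∈ J, ∀ m' ∈ J,
      h.Y hab ha hb m g → h.Y hab ha hb m' g := by
  induction N with
  | zero => intro g hg; omega
  | succ N ih =>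
    intro g hg m hm m' hm' hY
    obtain ⟨k, hk, hmax⟩ := J.exists_max_image (fun l => (ρ g a l).natAbs) ⟨a, ha⟩
    have step : ∀ i ∈ J, i ≠ k → ρ g a i ≠ 0 → ∀ u ∈ J, ∀ v ∈ J, i ≠ u → i ≠ v →
        h.Y hab ha hb u g → h.Y hab ha hb v g := by
      intro i hi hik h0 u hu v hv hiu hiv hu'
      obtain ⟨t, ht⟩ := hρ.descend (a := a) hk hik g h0 (hmax i hi)
      have y1 := ih _ (by omega) u hu v hv
        (h.Y_P hab ha hb hu' (E_mem (p := pP J u) hik ⟨hi, hk, hiu⟩ t))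
      have y2 := h.Y_P hab ha hb y1 (inv_mem (E_mem (p := pP J v) hik ⟨hi, hk, hiv⟩ t))
      rwa [mul_inv_cancel_right] at y2
    have fin : ∀ u ∈ J, ∀ v ∈ J, u ≠ v → h.Y hab ha hb u g →
        (∀ l ∈ J, l ≠ u → l ≠ v → ρ g a l = 0) → h.Y hab ha hb m' g :=
      fun u hu v hv huv h1 h2 => h.Z_Y hab ha hb hu hv huv hm'
        (hρ.Y_Z h hab ha hb h3 hu hv huv (hS u hu) h1 h2)
    by_cases c1 : ∃ i ∈ J, i ≠ k ∧ ρ g a i ≠ 0
    · obtain ⟨i, hi, hik, hi0⟩ := c1
      by_cases c2 : ∃ j ∈ J, j ≠ k ∧ j ≠ i ∧ ρ g a j ≠ 0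
      · obtain ⟨j, hj, hjk, hji, hj0⟩ := c2
        have yk : h.Y hab ha hb k g := by
          by_cases e : i = m
          · exact step j hj hjk hj0 m hm k hk (e ▸ hji) hjk hY
          · exact step i hi hik hi0 m hm k hk e hik hY
        by_cases e : i = m'
        · exact step j hj hjk hj0 k hk m' hm' hjk (e ▸ hji) yk
        · exact step i hi hik hi0 k hk m' hm' hik e yk
      · push Not at c2
        by_cases e : i = m
        · subst e
          exact fin i hi k hk hik hY fun l hl h1 h2 => c2 l hl h2 h1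
        · exact fin k hk i hi hik.symm (step i hi hik hi0 m hm k hk e hik hY) c2
    · push Not at c1
      by_cases e : m = k
      · obtain ⟨l, hl, hlk, -⟩ := h3 k k
        exact fin k hk l hl hlk.symm (e ▸ hY) fun u hu h1 _ => c1 u hu h1
      · exact fin m hm k hk e hY fun u hu _ h2 => c1 u hu h2

end Main

theorem Rep.stab (hρ : Rep x ρ) (h : St x) (J : Finset I) : StabP x ρ J := by
  induction J using Finset.strongInduction with
  | H J ih =>
  intro a ha g hg hrow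
  by_cases c1 : ∃ b ∈ J, b ≠ a
  swap
  · push Not at c1
    exact E_mono (fun i j hij hp => absurd ((c1 i hp.1).trans (c1 j hp.2).symm) hij) hg
  obtain ⟨b, hb, hba⟩ := c1
  have hab := hba.symm
  have hZ : h.Z hab ha hb a b g := by
    by_cases h3 : ∀ i j, ∃ l ∈ J, l ≠ i ∧ l ≠ j
    · have hS : ∀ i ∈ J, StabP x ρ (J.erase i) := fun i hi => ih _ (Finset.erase_ssubset hi)
      have all := fun g => hρ.Y_all h hab ha hb h3 hS _ g (Nat.lt_succ_self _)
      have hY : h.Y hab ha hb a g := by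
        refine h.E_ind (Q := h.Y hab ha hb a)
          (h.Z_Y hab ha hb ha hb hab ha (h.O_Z hab ha hb (h.O_one hab ha hb))) ?_ hg
        intro g i j t hij hp _ hY
        exact all _ j hp.2 a ha (h.Y_P hab ha hb (all _ a ha j hp.2 hY)
          (E_mem (p := pP J j) hij ⟨hp.1, hp.2, hij⟩ t))
      exact hρ.Y_Z h hab ha hb h3 ha hb hab (hS a ha) hY
        fun l hl h1 _ => by rw [hrow l hl, if_neg h1]
    · push Not at h3
      obtain ⟨u, v, huv⟩ := h3
      have key : ∀ l ∈ J, l = a ∨ l = b := by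
        intro l hl
        by_cases e1 : a = u
        · subst e1
          by_cases e : l = a
          · exact Or.inl e
          · exact Or.inr ((huv l hl e).trans (huv b hb hba).symm)
        · have e2 := huv a ha e1
          subst e2
          by_cases e : l = u
          · by_cases e' : b = u
            · exact Or.inr (e.trans e'.symm)
            · exact absurd (huv b hb e') hba
          · exact Or.inl (huv l hl e)
      exact ⟨1, g, h.O_one hab ha hb, E_mono (fun i j _ hp => ⟨key i hp.1, key j hp.2⟩) hg,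
        (one_mul _).symm⟩
  exact hρ.O_base h hab ha hb
    (hρ.Z_O h hab ha hb ha hb hab hZ (by rw [hrow b hb, if_neg hba])) (by rw [hrow a ha, if_pos rfl])

theorem Rep.N_inj (hρ : Rep x ρ) (h : St0 x) (K : Finset I) :
    ∀ ν ∈ E x (pN K a), (∀ j ∈ K, j ≠ a → ρ ν j a = 0) → ν = 1 := by
  induction K using Finset.induction_on with
  | empty =>
    intro ν hν _
    exact (Subgroup.mem_bot).1 (E_le (K := ⊥) (fun _ _ _ _ hp => absurd hp.1 (by simp)) hν)
  | insert j K hj ih =>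
    intro ν hν h0
    obtain ⟨u, hu, v, hv, rfl⟩ := h.E_split (q := pN K a) (p' := fun i l => i = j ∧ l = a)
      (fun i l s k m t hil hp hkm hq => by
        rw [h.cj_comm hil hkm (by rw [hp.2, ← hq.2]; exact hkm.symm) (by rw [hq.2, ← hp.2]; exact hil)]
        exact E_mem hkm hq _)
      (fun i l _ hp => (Finset.mem_insert.1 hp.1).elim (fun e => Or.inr ⟨e, hp.2⟩)
        (fun e => Or.inl ⟨e, hp.2⟩)) hν
    by_cases hja : j = a
    · have : v = 1 := (Subgroup.mem_bot).1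
        (E_le (K := ⊥) (fun i l _ hil hp => absurd ((hp.1.trans hja).trans hp.2.symm) hil) hv)
      subst this
      rw [mul_one] at h0 ⊢
      exact ih u hu fun i hi => h0 i (Finset.mem_insert_of_mem hi)
    obtain ⟨t, rfl⟩ : ∃ t, v = x j a t := by
      refine h.E_ind (Q := fun v => ∃ t, v = x j a t) ⟨0, (h.zero hja).symm⟩ ?_ hv
      rintro _ _ _ t _ ⟨rfl, rfl⟩ - ⟨s, rfl⟩
      exact ⟨s + t, (h.add hja _ _).symm⟩
    have r := hρ.row_E h hu (c := j) (fun _ hp => hj hp.1)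
    have e := h0 j (Finset.mem_insert_self _ _) hja
    rw [hρ.mul_x hja, r, r, if_neg (Ne.symm hja), if_pos rfl, if_pos rfl] at e
    have ht : t = 0 := by omega
    subst ht
    rw [h.zero hja, mul_one] at h0 ⊢
    exact ih u hu fun i hi => h0 i (Finset.mem_insert_of_mem hi)

/-- the matrix determines the word -/
theorem Rep.inj (hρ : Rep x ρ) (h : St x) (J : Finset I) :
    ∀ g ∈ E x (pG J), ρ g = 1 → g = 1 := by
  induction J using Finset.induction_on with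
  | empty =>
    intro g hg _
    exact (Subgroup.mem_bot).1 (E_le (K := ⊥) (fun _ _ _ _ hp => absurd hp.1 (by simp)) hg)
  | insert a J ha ih =>
    intro g hg h1
    have hP := hρ.stab h _ a (Finset.mem_insert_self _ _) g hg
      (fun l _ => by rw [h1, ← map_one ρ, rho_one])
    obtain ⟨γ, hγ, ν, hν, rfl⟩ := h.P_split hP
    rw [Finset.erase_insert ha] at hγ
    have e : ρ ν = ρ γ⁻¹ := by
      calc ρ ν = ρ γ⁻¹ * ρ (γ * ν) := by rw [← map_mul, inv_mul_cancel_left]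
        _ = _ := by rw [h1, mul_one]
    have : ν = 1 := hρ.N_inj h.toSt0 _ ν hν fun j _ hj => by
      rw [e, hρ.col_E' h.toSt0 (inv_mem hγ) (fun _ hp => ha hp.2), if_neg hj.symm]
    subst this
    rw [mul_one] at h1 ⊢
    exact ih γ hγ h1

end Pool.Agent.Lib.MP_755cca_al.Tr
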